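import Mathlib

set_option autoImplicit false

open scoped Matrix
open Finset

namespace Pool.Agent.TH829.PRL

section CB

variable {R : Type*} [CommRing R] {n : ℕ} {ι : Type*} [Fintype ι]

/-- Expansion of the determinant of a product over all functions. -/
theorem det_mul_expand (A : Matrix (Fin n) ι R) (B : Matrix ι (Fin n) R) :
    (A * B).det = ∑ I : Fin n → ι, (∏ a, A a (I a)) * (B.submatrix I id).det := by
  have h1 : (A * B).det = Matrix.detRowAlternating (fun a => ∑ i, A a i • B i) := by
    change Matrix.detRowAlternating (A * B) = _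
    congr 1
    funext a b
    simp [Matrix.mul_apply, Finset.sum_apply]
  rw [h1]
  have h2 := (Matrix.detRowAlternating (n := Fin n) (R := R)).toMultilinearMap.map_sum
    (fun (a : Fin n) (i : ι) => A a i • B i)
  refine h2.trans ?_
  refine Finset.sum_congr rfl fun I _ => ?_
  have h3 := (Matrix.detRowAlternating (n := Fin n) (R := R)).toMultilinearMap.map_smul_univ
    (fun a => A a (I a)) (fun a => B (I a))
  refine h3.trans ?_
  rfl

/-- Cauchy-Binet over functions. -/
theorem factorial_mul_det_mul (A : Matrix (Fin n) ι R) (B : Matrix ι (Fin n) R) :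
    (n.factorial : R) * (A * B).det =
      ∑ I : Fin n → ι, (A.submatrix id I).det * (B.submatrix I id).det := by
  have key : ∀ σ : Equiv.Perm (Fin n), (A * B).det = ∑ I : Fin n → ι,
      (((Equiv.Perm.sign σ : ℤˣ) : ℤ) : R) * (∏ a, A a (I (σ a))) * (B.submatrix I id).det := by
    intro σ
    rw [det_mul_expand]
    have h := Equiv.sum_comp (Equiv.arrowCongr σ.symm (Equiv.refl ι))
      (fun I : Fin n → ι => (∏ a, A a (I a)) * (B.submatrix I id).det)
    rw [← h]
    refine Finset.sum_congr rfl fun I _ => ?_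
    have h1 : (Equiv.arrowCongr σ.symm (Equiv.refl ι)) I = I ∘ σ := by
      funext a
      simp [Equiv.arrowCongr]
    rw [h1]
    have h2 : B.submatrix (I ∘ σ) id = (B.submatrix I id).submatrix σ id := by
      ext a b
      rfl
    rw [h2, Matrix.det_permute]
    simp only [Function.comp_apply]
    ring
  have h3 : ∑ σ : Equiv.Perm (Fin n), (A * B).det = (n.factorial : R) * (A * B).det := by
    rw [Finset.sum_const, Finset.card_univ, Fintype.card_perm, Fintype.card_fin, nsmul_eq_mul]
  rw [← h3, Finset.sum_congr rfl fun σ _ => key σ, Finset.sum_comm]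
  refine Finset.sum_congr rfl fun I _ => ?_
  rw [← Finset.sum_mul]
  congr 1
  rw [← Matrix.det_transpose, Matrix.det_apply']
  rfl

end CB

section FF

variable {R S : Type*} [CommRing R] [CommRing S] {n l : ℕ} {ι : Type*} [Fintype ι]

/-- The coordinate functions of the determinant. -/
def F (f : ℂ →+* R) (c : (Fin n → ι) → Fin l → ℂ) (X : Matrix (Fin n) ι R) (i : Fin l) : R :=
  ∑ I : Fin n → ι, (X.submatrix id I).det * f (c I i)

theorem F_mul (f : ℂ →+* R) (c : (Fin n → ι) → Fin l → ℂ) (A : Matrix (Fin n) (Fin n) R)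
    (X : Matrix (Fin n) ι R) (i : Fin l) : F f c (A * X) i = A.det * F f c X i := by
  rw [F, F, Finset.mul_sum]
  refine Finset.sum_congr rfl fun I _ => ?_
  have h : (A * X).submatrix id I = A * X.submatrix id I := by
    ext a b
    rfl
  rw [h, Matrix.det_mul, mul_assoc]

theorem map_F (g : R →+* S) (f : ℂ →+* R) (c : (Fin n → ι) → Fin l → ℂ)
    (X : Matrix (Fin n) ι R) (i : Fin l) : g (F f c X i) = F (g.comp f) c (X.map g) i := by
  rw [F, F, map_sum]
  refine Finset.sum_congr rfl fun I _ => ?_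
  rw [map_mul, RingHom.map_det]
  rfl

end FF

/-- The field of rational functions. -/
abbrev LL (n s : ℕ) : Type := FractionRing (MvPolynomial (Option (Fin n × Fin s)) ℂ)

/-- The variables. -/
noncomputable def xx (n s : ℕ) (v : Option (Fin n × Fin s)) : LL n s :=
  algebraMap (MvPolynomial (Option (Fin n × Fin s)) ℂ) (LL n s) (MvPolynomial.X v)

/-- diagonal part -/
noncomputable def dd (n s : ℕ) (hn : 0 < n) (i : Fin n) : LL n s :=
  if i = ⟨0, hn⟩ then xx n s none else 1

/-- The special matrix. -/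
noncomputable def XX (n s : ℕ) (hn : 0 < n) : Matrix (Fin n) (Fin n ⊕ Fin s) (LL n s) :=
  Matrix.fromCols (Matrix.diagonal (dd n s hn)) (Matrix.of fun i j => xx n s (some (i, j)))

theorem algebraicIndependent_xx (n s : ℕ) : AlgebraicIndependent ℂ (xx n s) := by
  have h := MvPolynomial.algebraicIndependent_X (Option (Fin n × Fin s)) ℂ
  exact h.map' (f := IsScalarTower.toAlgHom ℂ (MvPolynomial (Option (Fin n × Fin s)) ℂ) (LL n s))
    (IsFractionRing.injective _ _)

theorem xx_ne_zero (n s : ℕ) (v : Option (Fin n × Fin s)) : xx n s v ≠ 0 := by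
  rw [xx, Ne, map_eq_zero_iff _ (IsFractionRing.injective _ _)]
  exact MvPolynomial.X_ne_zero v

theorem det_XX_inl (n s : ℕ) (hn : 0 < n) :
    ((XX n s hn).submatrix id Sum.inl).det = xx n s none := by
  have h : (XX n s hn).submatrix id Sum.inl = Matrix.diagonal (dd n s hn) := by
    ext a b
    rfl
  rw [h, Matrix.det_diagonal, Finset.prod_eq_single (⟨0, hn⟩ : Fin n)]
  · simp [dd]
  · intro b _ hb
    simp [dd, hb]
  · simp

theorem det_XX_update (n s : ℕ) (hn : 0 < n) (i : Fin n) (j : Fin s) :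
    ((XX n s hn).submatrix id (Function.update Sum.inl i (Sum.inr j))).det =
      (∏ k ∈ Finset.univ.erase i, dd n s hn k) * xx n s (some (i, j)) := by
  have h : (XX n s hn).submatrix id (Function.update Sum.inl i (Sum.inr j)) =
      (Matrix.diagonal (dd n s hn)).updateCol i (fun a => xx n s (some (a, j))) := by
    ext a b
    rw [Matrix.submatrix_apply, Matrix.updateCol_apply, Function.update_apply]
    split_ifs with hb
    · rfl
    · rfl
  rw [h, ← Matrix.cramer_apply, Matrix.cramer_eq_adjugate_mulVec, Matrix.adjugate_diagonal,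
    Matrix.mulVec_diagonal]

/-- If a subfield contains all the minors, it is everything. -/
theorem mem_of_minors {n s : ℕ} (hn : 0 < n) (T : Subfield (LL n s))
    (hC : ∀ z : ℂ, algebraMap ℂ (LL n s) z ∈ T)
    (hm : ∀ J : Fin n → Fin n ⊕ Fin s, ((XX n s hn).submatrix id J).det ∈ T) (x : LL n s) :
    x ∈ T := by
  have h0 : xx n s none ∈ T := by
    rw [← det_XX_inl n s hn]
    exact hm _
  have hd : ∀ k, dd n s hn k ∈ T := by
    intro k
    rw [dd]
    split_ifs
    · exact h0
    · exact T.one_mem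
  have hd0 : ∀ k, dd n s hn k ≠ 0 := by
    intro k
    rw [dd]
    split_ifs
    · exact xx_ne_zero _ _ _
    · exact one_ne_zero
  have hx : ∀ v, xx n s v ∈ T := by
    intro v
    rcases v with _ | ⟨i, j⟩
    · exact h0
    · have h1 := hm (Function.update Sum.inl i (Sum.inr j))
      rw [det_XX_update] at h1
      have h2 : (∏ k ∈ Finset.univ.erase i, dd n s hn k) ∈ T := T.prod_mem fun k _ => hd k
      have h3 : (∏ k ∈ Finset.univ.erase i, dd n s hn k) ≠ 0 :=
        Finset.prod_ne_zero_iff.2 fun k _ => hd0 k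
      have h4 := T.mul_mem (T.inv_mem h2) h1
      rwa [inv_mul_cancel_left₀ h3] at h4
  have hp : ∀ p : MvPolynomial (Option (Fin n × Fin s)) ℂ, algebraMap _ (LL n s) p ∈ T := by
    intro p
    induction p using MvPolynomial.induction_on with
    | C a =>
      have := hC a
      rwa [IsScalarTower.algebraMap_apply ℂ (MvPolynomial (Option (Fin n × Fin s)) ℂ)] at this
    | add p q hp hq => rw [map_add]; exact T.add_mem hp hq
    | mul_X p v hp => rw [map_mul]; exact T.mul_mem hp (hx v)
  obtain ⟨p, q, hq, rfl⟩ := IsFractionRing.div_surjective (A := MvPolynomial (Option (Fin n × Fin s)) ℂ) x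
  exact T.div_mem (hp p) (hp q)

open scoped IntermediateField.algebraAdjoinAdjoin in
theorem exists_valuation {n s l : ℕ} (hn : 0 < n) (hl : l ≤ n * s) (G : Fin l → LL n s) :
    ∃ O : ValuationSubring (LL n s), (∀ z : ℂ, algebraMap ℂ (LL n s) z ∈ O) ∧ (∀ i, G i ∈ O) ∧
      ∃ J : Fin n → Fin n ⊕ Fin s, ((XX n s hn).submatrix id J).det ∉ O := by
  classical
  let E0 : IntermediateField ℂ (LL n s) := IntermediateField.adjoin ℂ (Set.range G)
  let R0 := integralClosure E0 (LL n s)
  have hCR : ∀ z : ℂ, algebraMap ℂ (LL n s) z ∈ R0 := fun z => by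
    rw [IsScalarTower.algebraMap_apply ℂ E0 (LL n s)]
    exact R0.algebraMap_mem _
  have hGR : ∀ i, G i ∈ R0 := fun i => by
    have h1 : G i ∈ E0 := IntermediateField.subset_adjoin _ _ ⟨i, rfl⟩
    exact R0.algebraMap_mem (⟨G i, h1⟩ : E0)
  obtain ⟨J, hJ⟩ : ∃ J : Fin n → Fin n ⊕ Fin s, ((XX n s hn).submatrix id J).det ∉ R0 := by
    by_contra hcon
    push Not at hcon
    have hall : ∀ x : LL n s, x ∈ algebraicClosure E0 (LL n s) :=
      mem_of_minors hn (algebraicClosure E0 (LL n s)).toSubfield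
        (fun z => mem_algebraicClosure_iff'.2 (hCR z)) (fun J => mem_algebraicClosure_iff'.2 (hcon J))
    have halg : Algebra.IsAlgebraic E0 (LL n s) := ⟨fun x => mem_algebraicClosure_iff.1 (hall x)⟩
    have halg2 : Algebra.IsAlgebraic (Algebra.adjoin ℂ (Set.range G)) (LL n s) :=
      IntermediateField.isAlgebraic_adjoin_iff_top.1 halg
    have h1 := Algebra.IsAlgebraic.trdeg_le_cardinalMk ℂ (Set.range G)
    have h2 := (algebraicIndependent_xx n s).cardinalMk_le_trdeg
    have h3 := h2.trans h1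
    rw [Cardinal.mk_fintype, Cardinal.mk_fintype, Nat.cast_le] at h3
    have h4 : Fintype.card (Set.range G) ≤ l := by
      have := Fintype.card_range_le G
      rwa [Fintype.card_fin] at this
    have h5 : Fintype.card (Option (Fin n × Fin s)) = n * s + 1 := by simp
    omega
  obtain ⟨O, hO, hJO⟩ := Subring.exists_le_valuationSubring_of_isIntegrallyClosedIn
    (R := R0.toSubring) (x := ((XX n s hn).submatrix id J).det) hJ
  exact ⟨O, fun z => hO (hCR z), fun i => hO (hGR i), J, hJO⟩

theorem exists_normalized {L : Type*} [Field L] {n : ℕ} {ι : Type*} [Finite ι]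
    (O : ValuationSubring L) (X : Matrix (Fin n) ι L) (J0 : Fin n → ι)
    (hJ0 : (X.submatrix id J0).det ∉ O) :
    ∃ (J : Fin n → ι) (P : Matrix (Fin n) ι O), P.submatrix id J = 1 ∧
      1 < O.valuation (X.submatrix id J).det ∧
      P.map (algebraMap O L) = (X.submatrix id J)⁻¹ * X := by
  classical
  have : Nonempty (Fin n → ι) := ⟨J0⟩
  obtain ⟨J, hJ⟩ := Finite.exists_max fun e : Fin n → ι => O.valuation (X.submatrix id e).det
  set M := X.submatrix id J with hM
  have hlt : 1 < O.valuation M.det := by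
    refine lt_of_lt_of_le ?_ (hJ J0)
    rw [← not_le, O.valuation_le_one_iff]
    exact hJ0
  have hM0 : M.det ≠ 0 := by
    intro h0
    rw [h0, map_zero] at hlt
    exact not_lt_zero hlt
  have hMu : IsUnit M.det := isUnit_iff_ne_zero.2 hM0
  have hreg : ∀ a j, (M⁻¹ * X) a j ∈ O := by
    intro a j
    have h1 : (M⁻¹ * X) a j = (X.submatrix id (Function.update J a j)).det / M.det := by
      have h2 : X.submatrix id (Function.update J a j) = M.updateCol a (fun b => X b j) := by
        ext b d
        rw [Matrix.submatrix_apply, Matrix.updateCol_apply, Function.update_apply]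
        split_ifs with h
        · rfl
        · rfl
      rw [h2, ← Matrix.cramer_apply, Matrix.cramer_eq_adjugate_mulVec, Matrix.inv_def,
        Ring.inverse_eq_inv', Matrix.smul_mul, Matrix.smul_apply, smul_eq_mul, div_eq_inv_mul]
      rfl
    rw [h1, ← O.valuation_le_one_iff, map_div₀]
    exact div_le_one_of_le₀ (hJ _) zero_le
  refine ⟨J, Matrix.of fun a j => ⟨_, hreg a j⟩, ?_, hlt, ?_⟩
  · ext a b
    rw [Matrix.submatrix_apply, Matrix.of_apply]
    change (M⁻¹ * X) (id a) (J b) = _
    have h1 : (M⁻¹ * X) (id a) (J b) = (M⁻¹ * M) a b := rfl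
    rw [h1, Matrix.nonsing_inv_mul _ hMu, Matrix.one_apply, Matrix.one_apply]
    split_ifs <;> rfl
  · ext a b
    rfl

theorem exists_complex_point {n l : ℕ} {ι : Type*} [Fintype ι] (c : (Fin n → ι) → Fin l → ℂ)
    {k : Type*} [Field k] (ψ : ℂ →+* k) (Y : Matrix (Fin n) ι k) (J : Fin n → ι)
    (hJ : Y.submatrix id J = 1) (hF : ∀ i, F ψ c Y i = 0) :
    ∃ Z : Matrix (Fin n) ι ℂ, Z.submatrix id J = 1 ∧ ∀ i, F (RingHom.id ℂ) c Z i = 0 := by
  classical
  let G : Matrix (Fin n) ι (MvPolynomial (Fin n × ι) ℂ) := Matrix.of fun a b => MvPolynomial.X (a, b)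
  let S : Set (MvPolynomial (Fin n × ι) ℂ) :=
    Set.range (fun ab : Fin n × Fin n => G ab.1 (J ab.2) - (1 : Matrix (Fin n) (Fin n) _) ab.1 ab.2) ∪
      Set.range (fun i => F (MvPolynomial.C : ℂ →+* MvPolynomial (Fin n × ι) ℂ) c G i)
  let e : MvPolynomial (Fin n × ι) ℂ →+* k := MvPolynomial.eval₂Hom ψ (fun p => Y p.1 p.2)
  have heC : e.comp MvPolynomial.C = ψ := by
    ext z
    simp [e]
  have heG : G.map e = Y := by
    ext a b
    simp [G, e]
  have hker : Ideal.span S ≤ RingHom.ker e := by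
    rw [Ideal.span_le]
    rintro p (⟨⟨a, b⟩, rfl⟩ | ⟨i, rfl⟩)
    · rw [SetLike.mem_coe, RingHom.mem_ker, map_sub, sub_eq_zero]
      have h1 : e (G a (J b)) = Y a (J b) := congrFun (congrFun heG a) (J b)
      have h2 : Y a (J b) = (1 : Matrix (Fin n) (Fin n) k) a b := congrFun (congrFun hJ a) b
      dsimp only
      rw [h1, h2, Matrix.one_apply, Matrix.one_apply]
      split_ifs
      · rw [map_one]
      · rw [map_zero]
    · rw [SetLike.mem_coe, RingHom.mem_ker]
      dsimp only
      rw [map_F, heC, heG, hF]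
  have hne : Ideal.span S ≠ ⊤ := by
    intro htop
    have h1 : (1 : MvPolynomial (Fin n × ι) ℂ) ∈ RingHom.ker e := hker (htop ▸ Submodule.mem_top)
    rw [RingHom.mem_ker, map_one] at h1
    exact one_ne_zero h1
  obtain ⟨x, hx⟩ : (MvPolynomial.zeroLocus ℂ (Ideal.span S)).Nonempty := by
    rw [Set.nonempty_iff_ne_empty]
    intro hempty
    have h1 := MvPolynomial.vanishingIdeal_zeroLocus_eq_radical (K := ℂ) (Ideal.span S)
    rw [hempty, MvPolynomial.vanishingIdeal_empty] at h1
    exact hne (Ideal.radical_eq_top.1 h1.symm)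
  rw [MvPolynomial.zeroLocus_span] at hx
  let e' : MvPolynomial (Fin n × ι) ℂ →+* ℂ := (MvPolynomial.aeval x).toRingHom
  have he'C : e'.comp MvPolynomial.C = RingHom.id ℂ := by
    ext z
    simp [e']
  refine ⟨G.map e', ?_, ?_⟩
  · ext a b
    have h1 := hx _ (Or.inl ⟨(a, b), rfl⟩)
    have h2 : e' (G a (J b) - (1 : Matrix (Fin n) (Fin n) _) a b) = 0 := h1
    rw [map_sub, sub_eq_zero] at h2
    rw [Matrix.submatrix_apply, Matrix.map_apply, id, h2, Matrix.one_apply, Matrix.one_apply]
    split_ifs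
    · rw [map_one]
    · rw [map_zero]
  · intro i
    have h1 : e' (F (MvPolynomial.C : ℂ →+* MvPolynomial (Fin n × ι) ℂ) c G i) = 0 :=
      hx _ (Or.inr ⟨i, rfl⟩)
    rwa [map_F, he'C] at h1


/-- (Paranjape-Ramanan.) `V ⊆ K ^ n` a `ℂ`-subspace such that `n` linearly independent (over `ℂ`)
elements of `V` are linearly independent over `K`; then their determinants span a space of dimension
at least `n (dim V - n) + 1` (the dimension of the cone over the Grassmannian `G(n, V)`). -/
theorem PR {K : Type} [Field K] [Algebra ℂ K] (n : ℕ) (hn : 0 < n) (V : Submodule ℂ (Fin n → K))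
    [FiniteDimensional ℂ V] (hV : n ≤ Module.finrank ℂ V)
    (W : Submodule ℂ K) [FiniteDimensional ℂ W]
    (hW : ∀ s : Fin n → Fin n → K, (∀ i, s i ∈ V) → (Matrix.of s).det ∈ W)
    (hne : ∀ s : Fin n → Fin n → K, (∀ i, s i ∈ V) → LinearIndependent ℂ s →
      (Matrix.of s).det ≠ 0) :
    n * (Module.finrank ℂ V - n) + 1 ≤ Module.finrank ℂ W := by
  classical
  by_contra hcon
  obtain ⟨s, hs⟩ := Nat.exists_eq_add_of_le hV
  have hl : Module.finrank ℂ W ≤ n * s := by
    rw [hs, Nat.add_sub_cancel_left] at hcon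
    omega
  clear hcon
  let vb : Module.Basis (Fin n ⊕ Fin s) ℂ V :=
    (Module.finBasisOfFinrankEq ℂ V hs).reindex finSumFinEquiv.symm
  obtain ⟨l, hl'⟩ : ∃ l, Module.finrank ℂ W = l := ⟨_, rfl⟩
  rw [hl'] at hl
  let wb : Module.Basis (Fin l) ℂ W := Module.finBasisOfFinrankEq ℂ W hl'
  let v : Fin n ⊕ Fin s → Fin n → K := fun b => (vb b : Fin n → K)
  have hvV : ∀ b, v b ∈ V := fun b => (vb b).2
  have hdetW : ∀ I : Fin n → Fin n ⊕ Fin s, (Matrix.of fun a => v (I a)).det ∈ W :=
    fun I => hW _ fun a => hvV _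
  let c : (Fin n → Fin n ⊕ Fin s) → Fin l → ℂ := fun I i => wb.repr ⟨_, hdetW I⟩ i
  have hc : ∀ I, (Matrix.of fun a => v (I a)).det = ∑ i, algebraMap ℂ K (c I i) * (wb i : K) := by
    intro I
    have h1 := congrArg (Subtype.val : W → K) (wb.sum_repr ⟨_, hdetW I⟩)
    rw [AddSubmonoidClass.coe_finsetSum] at h1
    refine h1.symm.trans ?_
    refine Finset.sum_congr rfl fun i _ => ?_
    rw [Submodule.coe_smul, Algebra.smul_def]
  have hP1 : ∀ Z : Matrix (Fin n) (Fin n ⊕ Fin s) ℂ,
      (n.factorial : K) * (Z.map (algebraMap ℂ K) * Matrix.of v).det =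
        ∑ i, algebraMap ℂ K (F (RingHom.id ℂ) c Z i) * (wb i : K) := by
    intro Z
    rw [factorial_mul_det_mul]
    have h1 : ∀ I : Fin n → Fin n ⊕ Fin s, ((Matrix.of v).submatrix I id).det =
        ∑ i, algebraMap ℂ K (c I i) * (wb i : K) := fun I => hc I
    simp only [h1, Finset.mul_sum]
    rw [Finset.sum_comm]
    refine Finset.sum_congr rfl fun i _ => ?_
    rw [F, map_sum, Finset.sum_mul]
    refine Finset.sum_congr rfl fun I _ => ?_
    rw [map_mul, RingHom.map_det, mul_assoc]
    rfl
  obtain ⟨O, hOC, hOF, J0, hJ0⟩ := exists_valuation hn hl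
    (fun i => F (algebraMap ℂ (LL n s)) c (XX n s hn) i)
  obtain ⟨J, P, hPJ, hlt, hP⟩ := exists_normalized O (XX n s hn) J0 hJ0
  let φ : ℂ →+* O := (algebraMap ℂ (LL n s)).codRestrict O hOC
  have hφ : (algebraMap O (LL n s)).comp φ = algebraMap ℂ (LL n s) := by
    ext z
    rfl
  have hF : ∀ i, F φ c P i ∈ IsLocalRing.maximalIdeal O := by
    intro i
    refine (O.valuation_lt_one_iff _).2 ?_
    have h1 : ((F φ c P i : O) : LL n s) = ((XX n s hn).submatrix id J)⁻¹.det *
        F (algebraMap ℂ (LL n s)) c (XX n s hn) i := by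
      change algebraMap O (LL n s) (F φ c P i) = _
      rw [map_F, hφ, hP, F_mul]
    rw [h1, map_mul]
    have h2 : O.valuation (((XX n s hn).submatrix id J)⁻¹).det < 1 := by
      rw [Matrix.det_nonsing_inv, Ring.inverse_eq_inv', map_inv₀]
      exact inv_lt_one_of_one_lt₀ hlt
    have h3 : O.valuation (F (algebraMap ℂ (LL n s)) c (XX n s hn) i) ≤ 1 :=
      (O.valuation_le_one_iff _).2 (hOF i)
    exact mul_lt_one_of_lt_of_le h2 h3
  obtain ⟨Z, hZJ, hZF⟩ := exists_complex_point c ((IsLocalRing.residue O).comp φ)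
    (P.map (IsLocalRing.residue O)) J (by
      ext a b
      have h1 : P a (J b) = (1 : Matrix (Fin n) (Fin n) O) a b := congrFun (congrFun hPJ a) b
      rw [Matrix.submatrix_apply, Matrix.map_apply, id, h1, Matrix.one_apply, Matrix.one_apply]
      split_ifs
      · rw [map_one]
      · rw [map_zero]) (by
      intro i
      rw [← map_F, IsLocalRing.residue_eq_zero_iff]
      exact hF i)
  let sv : Fin n → Fin n → K := Z.map (algebraMap ℂ K) * Matrix.of v
  have hsv : ∀ a, sv a = ∑ b, Z a b • v b := by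
    intro a
    funext d
    change (Z.map (algebraMap ℂ K) * Matrix.of v) a d = _
    rw [Matrix.mul_apply, Finset.sum_apply]
    refine Finset.sum_congr rfl fun b _ => ?_
    rw [Pi.smul_apply, Algebra.smul_def]
    rfl
  have hsvV : ∀ a, sv a ∈ V := by
    intro a
    rw [hsv]
    exact V.sum_mem fun b _ => V.smul_mem _ (hvV b)
  have hZJ' : ∀ a b, Z a (J b) = (1 : Matrix (Fin n) (Fin n) ℂ) a b :=
    fun a b => congrFun (congrFun hZJ a) b
  have hli : LinearIndependent ℂ sv := by
    rw [Fintype.linearIndependent_iff]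
    intro g hg a0
    have hvli : LinearIndependent ℂ v := by
      have := vb.linearIndependent.map' V.subtype (Submodule.ker_subtype V)
      exact this
    have h1 : ∑ b, (∑ a, g a * Z a b) • v b = 0 := by
      rw [← hg]
      simp only [hsv, Finset.smul_sum, Finset.sum_smul, smul_smul]
      rw [Finset.sum_comm]
    have h2 := Fintype.linearIndependent_iff.1 hvli _ h1 (J a0)
    simp only [hZJ'] at h2
    rw [Finset.sum_eq_single a0] at h2
    · rwa [Matrix.one_apply_eq, mul_one] at h2
    · intro b _ hb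
      rw [Matrix.one_apply_ne hb, mul_zero]
    · simp
  have hdet := hne sv hsvV hli
  have h1 := hP1 Z
  have h2 : ∑ i, algebraMap ℂ K (F (RingHom.id ℂ) c Z i) * (wb i : K) = 0 := by
    refine Finset.sum_eq_zero fun i _ => ?_
    rw [hZF, map_zero, zero_mul]
  rw [h2] at h1
  have h3 : (n.factorial : K) ≠ 0 := by
    have h4 : (n.factorial : K) = algebraMap ℂ K (n.factorial : ℂ) := by simp
    rw [h4, Ne, map_eq_zero]
    exact_mod_cast n.factorial_ne_zero
  exact (mul_ne_zero h3 hdet) h1

end Pool.Agent.TH829.PRL
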